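import Pool.Agent.Y553.PL.Stm

/-! PL-HASH: universal hashing by accumulation, union bound. -/

set_option autoImplicit false

namespace Pool.Agent.Y291.PL.HASH

open Pool.Agent.Y553.PL

section

variable {k l : ℕ} (acc : Fin l → Fin l → Fin l → Fin l) (z0 : Fin l)

theorem run_congr (q q' w : Fin k → Fin l) (n : ℕ) (h : ∀ i : Fin k, i.val < n → q i = q' i) :
    run acc z0 q w n = run acc z0 q' w n := by
  induction n with
  | zero => rfl
  | succ n ih =>
    have ih' := ih (fun i hi => h i (by omega))
    by_cases hn : n < k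
    · simp only [run, hn, dif_pos]
      rw [ih', h ⟨n, hn⟩ (by simp)]
    · simp only [run, hn, dif_neg, not_false_iff]
      exact ih'

theorem run_after (h1 : ∀ z z' q x, acc z q x = acc z' q x → z = z') (q w w' : Fin k → Fin l)
    (i : ℕ) (hi : ∀ j : Fin k, i < j.val → w j = w' j) (n : ℕ) (hn : i + 1 ≤ n)
    (h : run acc z0 q w n = run acc z0 q w' n) :
    run acc z0 q w (i + 1) = run acc z0 q w' (i + 1) := by
  induction n, hn using Nat.le_induction with
  | base => exact h
  | succ n hn ih =>
    apply ih
    by_cases hk : n < k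
    · simp only [run, hk, dif_pos] at h
      rw [hi ⟨n, hk⟩ (by simpa using hn)] at h
      exact h1 _ _ _ _ h
    · simp only [run, hk, dif_neg, not_false_iff] at h
      exact h

/-- the bad functions for a pair -/
def bad (w w' : Fin k → Fin l) : Finset (Fin k → Fin l) :=
  Finset.univ.filter
    (fun q => Pool.Agent.Y553.PL.hash acc z0 q w = Pool.Agent.Y553.PL.hash acc z0 q w')

theorem bad_card (h1 : ∀ z z' q x, acc z q x = acc z' q x → z = z')
    (h2 : ∀ z z' q q' x x', acc z q x = acc z' q x' → acc z q' x = acc z' q' x' →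
      x = x' ∨ q = q') (w w' : Fin k → Fin l) (hw : w ≠ w') :
    (bad acc z0 w w').card * l ≤ l ^ k := by
  classical
  -- the last index
  obtain ⟨i, hi, hlast⟩ : ∃ i, w i ≠ w' i ∧ ∀ j, i < j → w j = w' j := by
    have hne : (Finset.univ.filter (fun i => w i ≠ w' i)).Nonempty := by
      obtain ⟨i, hi⟩ := Function.ne_iff.1 hw
      exact ⟨i, by simp [hi]⟩
    refine ⟨(Finset.univ.filter (fun i => w i ≠ w' i)).max' hne, ?_, fun j hj => ?_⟩
    · have := Finset.max'_mem _ hne
      simpa using this
    · by_contra hc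
      exact absurd (Finset.le_max' (Finset.univ.filter (fun i => w i ≠ w' i)) j (by simp [hc]))
        (not_le.2 hj)
  have key : ∀ q ∈ bad acc z0 w w', ∀ q' ∈ bad acc z0 w w', (∀ j, j ≠ i → q j = q' j) →
      q = q' := by
    intro q hq q' hq' hqq
    have hq := (Finset.mem_filter.1 hq).2
    have hq' := (Finset.mem_filter.1 hq').2
    change run acc z0 q w k = run acc z0 q w' k at hq
    change run acc z0 q' w k = run acc z0 q' w' k at hq'
    have hlt : ∀ j : Fin k, j.val < i.val → q j = q' j :=
      fun j hj => hqq j (fun e => by rw [e] at hj; exact absurd hj (lt_irrefl _))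
    have e1 := run_congr acc z0 q q' w i.val hlt
    have e2 := run_congr acc z0 q q' w' i.val hlt
    have hl : ∀ j : Fin k, i.val < j.val → w j = w' j := fun j hj => hlast j hj
    have a1 := run_after acc z0 h1 q w w' i.val hl k i.isLt hq
    have a2 := run_after acc z0 h1 q' w w' i.val hl k i.isLt hq'
    simp only [run, i.isLt, dif_pos, Fin.eta] at a1 a2
    rw [← e1, ← e2] at a2
    rcases h2 _ _ _ _ _ _ a1 a2 with h | h
    · exact absurd h hi
    · funext j
      by_cases hj : j = i
      · rw [hj]; exact h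
      · exact hqq j hj
  have hinj : Set.InjOn (fun p : (Fin k → Fin l) × Fin l => Function.update p.1 i p.2)
      ((bad acc z0 w w' ×ˢ (Finset.univ : Finset (Fin l)) : Finset _) : Set _) := by
    rintro ⟨q, c⟩ hq ⟨q', c'⟩ hq' he
    simp only [Finset.coe_product, Set.mem_prod, Finset.mem_coe] at hq hq'
    simp only at he
    have hc : c = c' := by
      have := congrFun he i
      simpa using this
    have hqq : q = q' := by
      refine key q hq.1 q' hq'.1 (fun j hj => ?_)
      have := congrFun he j
      simpa [Function.update_of_ne hj] using this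
    rw [hc, hqq]
  have := Finset.card_le_card_of_injOn (t := (Finset.univ : Finset (Fin k → Fin l)))
    (fun p : (Fin k → Fin l) × Fin l => Function.update p.1 i p.2) (fun _ _ => Finset.mem_univ _)
    hinj
  simpa [Finset.card_product] using this

end

theorem t_HASH : St_HASH := by
  intro k l J acc h1 h2 z0 T hT
  classical
  by_contra hcon
  push Not at hcon
  have hl : 0 < l := Nat.pos_of_ne_zero (fun h => by subst h; exact z0.elim0)
  have hsub : (Finset.univ : Finset (Fin J → Fin k → Fin l)) ⊆
      T.offDiag.biUnion (fun p => Fintype.piFinset (fun _ : Fin J => bad acc z0 p.1 p.2)) := by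
    intro Q _
    obtain ⟨w, hw, w', hw', hh, hne⟩ := hcon Q
    rw [Finset.mem_biUnion]
    refine ⟨(w, w'), Finset.mem_offDiag.2 ⟨hw, hw', hne⟩, ?_⟩
    rw [Fintype.mem_piFinset]
    intro i
    simp only [bad, Finset.mem_filter, Finset.mem_univ, true_and]
    exact hh i
  have hc1 : (l ^ k) ^ J ≤ ∑ p ∈ T.offDiag, (bad acc z0 p.1 p.2).card ^ J := by
    have h := (Finset.card_le_card hsub).trans Finset.card_biUnion_le
    simpa [Fintype.card_piFinset_const] using h
  have hc2 : (l ^ k) ^ J * l ^ J ≤ T.offDiag.card * (l ^ k) ^ J := by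
    calc (l ^ k) ^ J * l ^ J ≤ (∑ p ∈ T.offDiag, (bad acc z0 p.1 p.2).card ^ J) * l ^ J :=
          Nat.mul_le_mul_right _ hc1
      _ = ∑ p ∈ T.offDiag, ((bad acc z0 p.1 p.2).card * l) ^ J := by
          rw [Finset.sum_mul]
          exact Finset.sum_congr rfl (fun p _ => (mul_pow _ _ _).symm)
      _ ≤ ∑ _p ∈ T.offDiag, (l ^ k) ^ J :=
          Finset.sum_le_sum (fun p hp => Nat.pow_le_pow_left
            (bad_card acc z0 h1 h2 p.1 p.2 (Finset.mem_offDiag.1 hp).2.2) J)
      _ = T.offDiag.card * (l ^ k) ^ J := by rw [Finset.sum_const, smul_eq_mul]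
  have hpos : 0 < (l ^ k) ^ J := by positivity
  have hc3 : l ^ J ≤ T.offDiag.card := by
    rw [mul_comm] at hc2
    exact Nat.le_of_mul_le_mul_right hc2 hpos
  have hlJ : 0 < l ^ J := by positivity
  rw [Finset.offDiag_card] at hc3
  rcases Nat.eq_zero_or_pos T.card with h0 | h0
  · rw [h0] at hc3
    simp at hc3
    omega
  · have : T.card * T.card - T.card < T.card * T.card :=
      Nat.sub_lt (Nat.mul_pos h0 h0) h0
    omega

end Pool.Agent.Y291.PL.HASH
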